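import Mathlib
import Pool.Agent.W716.FV.StmA

set_option autoImplicit false
set_option linter.unusedVariables false

open MeasureTheory Set

namespace Pool.Agent.W930.FV

open Pool.Agent.W716.FV

theorem main : RadialConst := by
  intro n
  have hdim : Module.finrank ℝ (E (n + 1)) = n + 1 := by simp
  have hI : ∫ v : E (n + 1), Real.exp (-(1 / 2) * ‖v‖ ^ 2) = √(2 * Real.pi) ^ (n + 1) := by
    rw [GaussianFourier.integral_rexp_neg_mul_sq_norm (by norm_num : (0 : ℝ) < 1 / 2), hdim]
    have h1 : Real.pi / (1 / 2) = 2 * Real.pi := by ring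
    rw [h1, Real.sqrt_eq_rpow, ← Real.rpow_natCast, ← Real.rpow_mul (by positivity)]
    congr 1
    push_cast
    ring
  have hne : ∫ v : E (n + 1), Real.exp (-(1 / 2) * ‖v‖ ^ 2) ≠ 0 := by
    rw [hI]
    positivity
  have hint : Integrable (fun v : E (n + 1) => Real.exp (-(1 / 2) * ‖v‖ ^ 2)) :=
    Integrable.of_integral_ne_zero hne
  have hint2 := (integrable_fun_norm_addHaar (volume : Measure (E (n + 1)))
    (f := fun r => Real.exp (-(1 / 2) * r ^ 2))).1 hint
  have hpol := integral_fun_norm_addHaar (volume : Measure (E (n + 1)))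
    (fun r => Real.exp (-(1 / 2) * r ^ 2))
  rw [hI] at hpol
  rw [hdim, Nat.add_sub_cancel] at hint2 hpol
  have hfun : ∀ y : ℝ, y ^ n • Real.exp (-(1 / 2) * y ^ 2) = y ^ n * Real.exp (-(y ^ 2) / 2) := by
    intro y
    rw [smul_eq_mul]
    congr 2
    ring
  simp only [hfun] at hint2 hpol
  rw [Measure.toSphere_apply_univ, hdim, hpol,
    ← ofReal_integral_eq_lintegral_ofReal hint2]
  · rw [nsmul_eq_mul, smul_eq_mul, ENNReal.ofReal_mul (by positivity),
      ENNReal.ofReal_mul (by positivity), ENNReal.ofReal_natCast, Measure.real,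
      ENNReal.ofReal_toReal measure_ball_lt_top.ne, mul_assoc]
  · refine (ae_restrict_iff' measurableSet_Ioi).2 (Filter.Eventually.of_forall fun y hy => ?_)
    have : (0 : ℝ) < y := hy
    change 0 ≤ y ^ n * Real.exp (-(y ^ 2) / 2)
    positivity

end Pool.Agent.W930.FV
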